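import Mathlib
import Pool.Agent.V1123.WreathAsym

set_option autoImplicit false

namespace Pool.Agent.Results.MP_9ae5d9_al.IntDepthUpper

open Filter Pool.Agent.V1123.Wreath
open scoped ENNReal

/-- For every `k ≥ 2` the conjugacy depth of the wreath product of `ℤ` by `ℤ^k` is at most
`(n + 2) ^ (C n)`, and hence does not dominate `(log n) ^ (n ^ k)`. -/
theorem result (k : ℕ) (hk : 2 ≤ k) (S : Finset (Wr ℤ (Fin k → ℤ))) :
    (∃ C : ℕ, ∀ n : ℕ, conjDepth S n ≤ (((n + 2) ^ (C * n) : ℕ) : ℕ∞)) ∧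
    ∀ C : ℕ, ∀ᶠ n : ℕ in atTop,
      (((C : ℕ∞) * conjDepth S (C * n) : ℕ∞) : ℝ≥0∞) <
        ENNReal.ofReal ((Real.log (n : ℝ)) ^ (n ^ k)) := by
  obtain ⟨C', hC'⟩ := conjDepth_Z k S
  refine ⟨⟨C', hC'⟩, fun C => ?_⟩
  have hlog : ∀ᶠ n : ℕ in atTop, (2 : ℝ) ≤ Real.log (n : ℝ) :=
    (Real.tendsto_log_atTop.comp tendsto_natCast_atTop_atTop).eventually_ge_atTop 2
  filter_upwards [eventually_lt C C' k hk, hlog] with n hn hn2
  have h1 : (C : ℕ∞) * conjDepth S (C * n) ≤ ((C * (C * n + 2) ^ (C' * (C * n)) : ℕ) : ℕ∞) := by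
    calc (C : ℕ∞) * conjDepth S (C * n)
        ≤ (C : ℕ∞) * (((C * n + 2) ^ (C' * (C * n)) : ℕ) : ℕ∞) := by
          gcongr; exact hC' (C * n)
      _ = ((C * (C * n + 2) ^ (C' * (C * n)) : ℕ) : ℕ∞) := by push_cast; rfl
  have h2 : (((C : ℕ∞) * conjDepth S (C * n) : ℕ∞) : ℝ≥0∞) ≤
      ((C * (C * n + 2) ^ (C' * (C * n)) : ℕ) : ℝ≥0∞) := by
    have := ENat.toENNReal_le.2 h1
    rwa [ENat.toENNReal_coe] at this
  refine lt_of_le_of_lt h2 ?_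
  have h3 : ((C * (C * n + 2) ^ (C' * (C * n)) : ℕ) : ℝ≥0∞) < ((2 ^ (n ^ k) : ℕ) : ℝ≥0∞) := by
    exact_mod_cast hn
  refine lt_of_lt_of_le h3 ?_
  rw [← ENNReal.ofReal_natCast]
  apply ENNReal.ofReal_le_ofReal
  push_cast
  exact pow_le_pow_left₀ (by norm_num) hn2 _

end Pool.Agent.Results.MP_9ae5d9_al.IntDepthUpper
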