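import Mathlib
import Pool.Agent.V1123.WreathAsym

set_option autoImplicit false

namespace Pool.Agent.Results.MP_9ae5d9_al.LampDepthUpper

open Filter Pool.Agent.V1123.Wreath

/-- For every prime `p` and every `k ≥ 2` the conjugacy depth of the wreath product of the field
with `p` elements by `ℤ^k` is at most `(n + 2) ^ (C n)`, and hence does not dominate
`2 ^ (n ^ k)`. -/
theorem result (p : ℕ) [Fact p.Prime] (k : ℕ) (hk : 2 ≤ k)
    (S : Finset (Wr (ZMod p) (Fin k → ℤ))) :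
    (∃ C : ℕ, ∀ n : ℕ, conjDepth S n ≤ (((n + 2) ^ (C * n) : ℕ) : ℕ∞)) ∧
    ∀ C : ℕ, ∀ᶠ n : ℕ in atTop,
      (C : ℕ∞) * conjDepth S (C * n) < ((2 ^ (n ^ k) : ℕ) : ℕ∞) := by
  obtain ⟨C', hC'⟩ := conjDepth_Fp p k S
  refine ⟨⟨C', hC'⟩, fun C => ?_⟩
  filter_upwards [eventually_lt C C' k hk] with n hn
  calc (C : ℕ∞) * conjDepth S (C * n)
      ≤ (C : ℕ∞) * (((C * n + 2) ^ (C' * (C * n)) : ℕ) : ℕ∞) := by
        gcongr; exact hC' (C * n)
    _ = ((C * (C * n + 2) ^ (C' * (C * n)) : ℕ) : ℕ∞) := by push_cast; rfl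
    _ < ((2 ^ (n ^ k) : ℕ) : ℕ∞) := by exact_mod_cast hn

end Pool.Agent.Results.MP_9ae5d9_al.LampDepthUpper
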